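import Pool.Agent.helper53.ORT.Spec

/-!
# Project ort (MP_561ff4_al), row KDB: the field attached to an element of order `r`
-/

set_option autoImplicit false

namespace Pool.Agent.ORT

open Module Pool.Agent.GS Polynomial

noncomputable section

section aux

variable {F V : Type} [Field F] [AddCommGroup V] [Module F V]

/-- polynomials in `S` map `U` to `U` -/
theorem KDB_maps (S : V →ₗ[F] V) (U : Submodule F V) (hU : ∀ u ∈ U, S u ∈ U) (p : F[X]) :
    ∀ u ∈ U, aeval S p u ∈ U := by
  induction p using Polynomial.induction_on with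
  | C a =>
    intro u hu
    rw [aeval_C, Module.algebraMap_end_apply]
    exact U.smul_mem _ hu
  | add p q hp hq =>
    intro u hu
    rw [map_add, LinearMap.add_apply]
    exact U.add_mem (hp u hu) (hq u hu)
  | monomial n a h =>
    intro u hu
    rw [pow_succ, ← mul_assoc, map_mul, Module.End.mul_apply, aeval_X]
    exact h _ (hU u hu)

/-- polynomials in a self-adjoint map are self-adjoint -/
theorem KDB_adj (B : LinearMap.BilinForm F V) (S : V →ₗ[F] V)
    (hS : ∀ u w, B (S u) w = B u (S w)) (p : F[X]) :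
    ∀ u w, B (aeval S p u) w = B u (aeval S p w) := by
  induction p using Polynomial.induction_on with
  | C a =>
    intro u w
    rw [aeval_C, Module.algebraMap_end_apply, Module.algebraMap_end_apply, map_smul, map_smul,
      LinearMap.smul_apply]
  | add p q hp hq =>
    intro u w
    rw [map_add, LinearMap.add_apply, LinearMap.add_apply, map_add, map_add, LinearMap.add_apply,
      hp, hq]
  | monomial n a h =>
    intro u w
    have e1 : (C a * X ^ (n + 1) : F[X]) = C a * X ^ n * X := by rw [pow_succ, ← mul_assoc]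
    have e2 : (C a * X ^ (n + 1) : F[X]) = X * (C a * X ^ n) := by rw [e1, mul_comm]
    have h1 : aeval S (C a * X ^ (n + 1) : F[X]) u = aeval S (C a * X ^ n : F[X]) (S u) := by
      rw [e1, map_mul, Module.End.mul_apply, aeval_X]
    have h2 : aeval S (C a * X ^ (n + 1) : F[X]) w = S (aeval S (C a * X ^ n : F[X]) w) := by
      rw [e2, map_mul, Module.End.mul_apply, aeval_X]
    rw [h1, h2, h, hS]

/-- polynomials in `S` commute with everything that commutes with `S` -/
theorem KDB_comm (k : Equiv.Perm V) (hk : Lin F k) (S : V →ₗ[F] V)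
    (hS : ∀ u, k (S u) = S (k u)) (p : F[X]) :
    ∀ u, k (aeval S p u) = aeval S p (k u) := by
  induction p using Polynomial.induction_on with
  | C a =>
    intro u
    rw [aeval_C, Module.algebraMap_end_apply, Module.algebraMap_end_apply, hk.2]
  | add p q hp hq =>
    intro u
    rw [map_add, LinearMap.add_apply, LinearMap.add_apply, hk.1, hp, hq]
  | monomial n a h =>
    intro u
    rw [pow_succ, ← mul_assoc, map_mul, Module.End.mul_apply, Module.End.mul_apply, aeval_X, h, hS]

/-- polynomials in the restriction of `S` -/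
theorem KDB_res (S : V →ₗ[F] V) (U : Submodule F V) (hU : ∀ u ∈ U, S u ∈ U) (p : F[X]) :
    ∀ u : U, ((aeval (S.restrict hU) p u : U) : V) = aeval S p (u : V) := by
  induction p using Polynomial.induction_on with
  | C a =>
    intro u
    rw [aeval_C, Module.algebraMap_end_apply, aeval_C, Module.algebraMap_end_apply]
    rfl
  | add p q hp hq =>
    intro u
    rw [map_add, LinearMap.add_apply, map_add, LinearMap.add_apply, ← hp, ← hq]
    rfl
  | monomial n a h =>
    intro u
    have h1 : aeval (S.restrict hU) (C a * X ^ (n + 1) : F[X]) u =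
        aeval (S.restrict hU) (C a * X ^ n : F[X]) (S.restrict hU u) := by
      rw [pow_succ, ← mul_assoc, map_mul, Module.End.mul_apply, aeval_X]
    have h2 : aeval S (C a * X ^ (n + 1) : F[X]) (u : V) =
        aeval S (C a * X ^ n : F[X]) (S (u : V)) := by
      rw [pow_succ, ← mul_assoc, map_mul, Module.End.mul_apply, aeval_X]
    rw [h1, h2, h]
    rfl

/-- iterates -/
theorem KDB_pow (k : Equiv.Perm V) (hk : Lin F k) (ε : F) (d : V) (h : k d = ε • d) (n : ℕ) :
    (k ^ n) d = ε ^ n • d := by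
  induction n with
  | zero => rw [pow_zero, pow_zero, one_smul]; rfl
  | succ n ih =>
    rw [pow_succ', Equiv.Perm.mul_apply, ih, hk.2, h, smul_smul, pow_succ]

/-- the functional is a trace -/
theorem KDB_tr {K : Type} [Field K] [Algebra F K] [Finite K] [FiniteDimensional F K]
    (hbf : Sym (bf F K 1)) (l : K →ₗ[F] F) :
    ∃ β : K, ∀ x, l x = Algebra.trace F K (β * x) := by
  let Φ : K →ₗ[F] Module.Dual F K := bf F K 1
  have hinj : Function.Injective Φ := by
    rw [injective_iff_map_eq_zero]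
    intro x hx
    refine hbf.nd x fun y => ?_
    have : Φ x y = 0 := by rw [hx]; rfl
    exact this
  have hfr : finrank F K = finrank F (Module.Dual F K) := (Subspace.dual_finrank_eq).symm
  have hsur := (LinearMap.injective_iff_surjective_of_finrank_eq_finrank hfr).1 hinj
  obtain ⟨β, hβ⟩ := hsur l
  refine ⟨β, fun x => ?_⟩
  have h1 : l x = bf F K 1 β x := by
    rw [← hβ]
  rw [h1]
  unfold bf
  simp

end aux

theorem KDB (kda : KDA_stmt) (kdp : KDP_stmt) (kdt : KDT_stmt) (hbf : GS.BF_stmt) : KDB_stmt := by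
  intro F V _ _ _ _ _ B hF hB k hk r hr hr2 hrF hkr hk1
  obtain ⟨S, U, hS, hU0, hkU, hfix, hnd, hdich⟩ := kda B hF hB k hk r hr hr2 hrF hkr hk1
  obtain ⟨G, hG3, hGm, hG⟩ := kdp
  have two : (2 : F) ≠ 0 := Ring.two_ne_zero hF
  have hkL : Lin F k := hk.1
  have hk' : k⁻¹ ∈ SpG B := (SpG B).inv_mem hk
  have hkL' : Lin F k⁻¹ := hk'.1
  -- `k⁻¹` as an adjoint
  have hadj : ∀ u w, B (k u) w = B u (k⁻¹ w) := by
    intro u w
    rw [← hk.2 u (k⁻¹ w), pinv]
  have hadj' : ∀ u w, B (k⁻¹ u) w = B u (k w) := by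
    intro u w
    rw [← hk.2 (k⁻¹ u) w, pinv]
  have hSadj : ∀ u w, B (S u) w = B u (S w) := by
    intro u w
    rw [hS, hS, map_add, map_add, LinearMap.add_apply, hadj, hadj', add_comm]
  have hSk : ∀ u, k (S u) = S (k u) := by
    intro u
    rw [hS, hS, hkL.1, pinv, invp]
  have hSk' : ∀ u, k⁻¹ (S u) = S (k⁻¹ u) := by
    intro u
    rw [hS, hS, hkL'.1, pinv, invp]
  -- `r = 2 n + 1`
  obtain ⟨n, hn⟩ : ∃ n, r = 2 * n + 1 := by
    rcases hr.eq_two_or_odd' with h | ⟨n, h⟩
    · exact absurd h hr2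
    · exact ⟨n, h⟩
  -- `k⁻¹` maps `U` to `U`
  have hkpowU : ∀ (m : ℕ), ∀ u ∈ U, (k ^ m) u ∈ U := by
    intro m
    induction m with
    | zero => intro u hu; rw [pow_zero]; exact hu
    | succ m ih => intro u hu; rw [pow_succ', Equiv.Perm.mul_apply]; exact hkU _ (ih u hu)
  have hkinv : k⁻¹ = k ^ (r - 1) := by
    have h1 : k * k ^ (r - 1) = 1 := by
      rw [← pow_succ', show r - 1 + 1 = r by omega, hkr]
    exact inv_eq_of_mul_eq_one_right h1
  have hSU : ∀ u ∈ U, S u ∈ U := by
    intro u hu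
    rw [hS, hkinv]
    exact U.add_mem (hkU u hu) (hkpowU _ u hu)
  -- a vector of nonzero norm
  obtain ⟨v, hvU, hv⟩ : ∃ v ∈ U, B v v ≠ 0 := by
    by_contra hcon
    push Not at hcon
    apply hU0
    rw [Submodule.eq_bot_iff]
    intro u hu
    refine hnd u hu fun w hw => ?_
    have h1 := hcon (u + w) (U.add_mem hu hw)
    rw [map_add, map_add, LinearMap.add_apply, LinearMap.add_apply, hcon u hu, hcon w hw,
      hB.symm w u, zero_add, add_zero] at h1
    have h2 : 2 * B u w = 0 := by rw [two_mul]; exact h1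
    exact (mul_eq_zero.1 h2).resolve_left two
  have hv0 : v ≠ 0 := by
    intro h
    apply hv
    rw [h]
    simp
  -- the minimal polynomial
  let SU : U →ₗ[F] U := S.restrict hSU
  have hint : IsIntegral F SU := Algebra.IsIntegral.isIntegral SU
  obtain ⟨f, hf⟩ : ∃ f : F[X], f = minpoly F SU := ⟨_, rfl⟩
  have hmon : f.Monic := by rw [hf]; exact minpoly.monic hint
  have hzero : ∀ p : F[X], (∀ u ∈ U, aeval S p u = 0) → f ∣ p := by
    intro p hp
    rw [hf]
    apply minpoly.dvd
    apply LinearMap.ext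
    intro u
    apply Subtype.ext
    rw [KDB_res S U hSU p u, hp u u.2]
    rfl
  have hfU : ∀ u ∈ U, aeval S f u = 0 := by
    intro u hu
    have h1 := KDB_res S U hSU f ⟨u, hu⟩
    rw [← h1]
    have h2 : aeval (S.restrict hSU) f = 0 := by rw [hf]; exact minpoly.aeval F SU
    rw [h2]
    rfl
  have hdv : ∀ p : F[X], aeval S p v = 0 → f ∣ p := by
    intro p hp
    rcases hdich p with h | h
    · exact hzero p h
    · exact absurd (h v hvU hp) hv0
  have hmul : ∀ (p q : F[X]) (u : V), aeval S (p * q) u = aeval S p (aeval S q u) := by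
    intro p q u
    rw [map_mul, Module.End.mul_apply]
  have hdvd0 : ∀ p : F[X], f ∣ p → ∀ u ∈ U, aeval S p u = 0 := by
    rintro p ⟨q, rfl⟩ u hu
    rw [hmul]
    exact hfU _ (KDB_maps S U hSU q u hu)
  have hnu : ¬ IsUnit f := by
    intro h
    have h1 : f ∣ 1 := h.dvd
    have h2 := hdvd0 1 h1 v hvU
    rw [map_one] at h2
    exact hv0 h2
  have hirr : Irreducible f := by
    have hpr : Prime f := by
      refine ⟨hmon.ne_zero, hnu, fun a b hab => ?_⟩
      rcases hdich a with h | h
      · exact Or.inl (hzero a h)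
      · right
        apply hzero b
        intro u hu
        apply h _ (KDB_maps S U hSU b u hu)
        rw [← hmul]
        exact hdvd0 _ hab u hu
    exact hpr.irreducible
  have : Fact (Irreducible f) := ⟨hirr⟩
  let pb : PowerBasis F (AdjoinRoot f) := AdjoinRoot.powerBasis hmon.ne_zero
  have hfd : FiniteDimensional F (AdjoinRoot f) := pb.finite
  have hfin : Finite (AdjoinRoot f) := Module.finite_of_finite F
  have hrank : finrank F (AdjoinRoot f) = f.natDegree := by
    rw [pb.finrank]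
    rfl
  let σ : AdjoinRoot f := AdjoinRoot.root f
  let j : AdjoinRoot f →ₗ[F] V :=
    (LinearMap.applyₗ v).comp ((aeval S).toLinearMap.comp (AdjoinRoot.modByMonicHom hmon))
  have hj : ∀ p : F[X], j (AdjoinRoot.mk f p) = aeval S p v := by
    intro p
    have h1 : j (AdjoinRoot.mk f p) = aeval S (p %ₘ f) v := by
      show aeval S (AdjoinRoot.modByMonicHom hmon (AdjoinRoot.mk f p)) v = _
      rw [AdjoinRoot.modByMonicHom_mk]
    have h2 : aeval S p v = aeval S (p %ₘ f) v + aeval S (f * (p /ₘ f)) v := by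
      rw [← LinearMap.add_apply, ← map_add, modByMonic_add_div p f]
    rw [h1, h2, hdvd0 _ (dvd_mul_right _ _) v hvU, add_zero]
  have hjU : ∀ c, j c ∈ U := by
    intro c
    obtain ⟨p, rfl⟩ := AdjoinRoot.mk_surjective c
    rw [hj]
    exact KDB_maps S U hSU p v hvU
  have hSj : ∀ c, S (j c) = j (σ * c) := by
    intro c
    obtain ⟨p, rfl⟩ := AdjoinRoot.mk_surjective c
    have h1 : σ * AdjoinRoot.mk f p = AdjoinRoot.mk f (X * p) := by
      rw [map_mul, AdjoinRoot.mk_X]
    rw [h1, hj, hj, hmul, aeval_X]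
  -- the functional
  let l : AdjoinRoot f →ₗ[F] F := (B v).comp j
  have hl : ∀ c, l c = B v (j c) := fun c => rfl
  obtain ⟨β, hβ⟩ := KDB_tr ((hbf (F := F) (K := AdjoinRoot f)).1 1 one_ne_zero) l
  have hj1 : j 1 = v := by
    have h1 : (1 : AdjoinRoot f) = AdjoinRoot.mk f 1 := (map_one _).symm
    rw [h1, hj, map_one]
    rfl
  have hβ0 : β ≠ 0 := by
    intro h
    have h1 := hβ 1
    rw [h, zero_mul, map_zero, hl, hj1] at h1
    exact hv h1
  have hadjp := KDB_adj B S hSadj
  have hcomm := KDB_comm k hkL S hSk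
  have hcomm' := KDB_comm k⁻¹ hkL' S hSk'
  have hcancelσ : ∀ ε : F, σ = algebraMap F (AdjoinRoot f) (2 * ε) → ∀ u ∈ U, S u = (2 * ε) • u := by
    intro ε h u hu
    have h1 : AdjoinRoot.mk f (X - C (2 * ε)) = 0 := by
      rw [map_sub, AdjoinRoot.mk_X, AdjoinRoot.mk_C]
      exact sub_eq_zero.2 h
    have h2 := hdvd0 _ (AdjoinRoot.mk_eq_zero.1 h1) u hu
    rw [map_sub, aeval_X, aeval_C, LinearMap.sub_apply, Module.algebraMap_end_apply, sub_eq_zero] at h2
    exact h2
  -- no eigenvector with eigenvalue `ε`, `ε² = 1`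
  have hrv : ∀ u, (k ^ r) u = u := by
    intro u
    rw [hkr]
    rfl
  have hneg : ∀ u ∈ U, k u = (-1 : F) • u → u = 0 := by
    intro u hu h
    have h1 := KDB_pow k hkL (-1) u h r
    rw [hrv, hn, pow_succ, pow_mul, neg_one_sq, one_pow, one_mul, neg_one_smul] at h1
    have h2 : (2 : F) • u = 0 := by
      rw [two_smul]
      nth_rewrite 1 [h1]
      exact neg_add_cancel u
    exact (smul_eq_zero.1 h2).resolve_left two
  have heps : ∀ ε : F, ε = 1 ∨ ε = -1 → ∀ u ∈ U, k u = ε • u → u = 0 := by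
    rintro ε (rfl | rfl) u hu h
    · rw [one_smul] at h
      exact hfix u hu h
    · exact hneg u hu h
  refine ⟨AdjoinRoot f, inferInstance, inferInstance, hfin, hfd, β, σ, j,
    ⟨hβ0, ?_, ?_, ?_, ?_, ?_, ?_⟩, ?_, ?_⟩
  · -- `σ ≠ 0`
    intro h
    have h1 := hcancelσ 0 (by rw [mul_zero, map_zero]; exact h) v hvU
    rw [mul_zero, zero_smul, hS] at h1
    -- `k v = - k⁻¹ v`
    have h2 : k (k v) = (-1 : F) • v := by
      have h3 : k v = (-1 : F) • k⁻¹ v := by
        rw [neg_one_smul]
        exact eq_neg_of_add_eq_zero_left h1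
      rw [h3, hkL.2, pinv]
    have hL2 : Lin F (k ^ 2) := by
      have : k ^ 2 ∈ SpG B := (SpG B).pow_mem hk 2
      exact this.1
    have h4 : (k ^ 2) v = (-1 : F) • v := by
      rw [pow_two, Equiv.Perm.mul_apply]
      exact h2
    have h5 := KDB_pow (k ^ 2) hL2 (-1) v h4 n
    have h6 : k ((k ^ (2 * n)) v) = v := by
      have := hrv v
      rw [hn, pow_succ', Equiv.Perm.mul_apply] at this
      exact this
    rw [pow_mul, h5, hkL.2] at h6
    have h7 : ((-1 : F) ^ n) * ((-1 : F) ^ n) = 1 := by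
      rw [← mul_pow, neg_one_mul, neg_neg, one_pow]
    have h8 : k v = ((-1 : F) ^ n) • v := by
      have h9 : ((-1 : F) ^ n) • (((-1 : F) ^ n) • k v) = ((-1 : F) ^ n) • v := by rw [h6]
      rw [smul_smul, h7, one_smul] at h9
      exact h9
    exact hv0 (heps _ (neg_one_pow_eq_or F n) v hvU h8)
  · -- `σ² ≠ 4`
    intro h
    have h1 : (σ - 2) * (σ + 2) = 0 := by
      have : (σ - 2) * (σ + 2) = σ ^ 2 - 4 := by ring
      rw [this, h, sub_self]
    obtain ⟨ε, he, hσ⟩ : ∃ ε : F, (ε = 1 ∨ ε = -1) ∧ σ = algebraMap F (AdjoinRoot f) (2 * ε) := by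
      rcases mul_eq_zero.1 h1 with h2 | h2
      · refine ⟨1, Or.inl rfl, ?_⟩
        rw [mul_one, map_ofNat]
        exact sub_eq_zero.1 h2
      · refine ⟨-1, Or.inr rfl, ?_⟩
        rw [mul_neg_one, map_neg, map_ofNat]
        exact eq_neg_of_add_eq_zero_left h2
    have h3 := hcancelσ ε hσ v hvU
    have hee : ε * ε = 1 := by
      rcases he with rfl | rfl
      · rw [one_mul]
      · rw [neg_mul_neg, one_mul]
    rw [hS] at h3
    have h4 : k (k v) + v = (2 * ε) • k v := by
      have h5 : k (k v + k⁻¹ v) = k ((2 * ε) • v) := by rw [h3]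
      rw [hkL.1, pinv, hkL.2] at h5
      exact h5
    have hdU : k v - ε • v ∈ U := U.sub_mem (hkU v hvU) (U.smul_mem _ hvU)
    have h6 : k (k v - ε • v) = ε • (k v - ε • v) := by
      have h7 : k (k v - ε • v) = k (k v) - ε • k v := by
        rw [sub_eq_add_neg, hkL.1, ← neg_smul, hkL.2, neg_smul, ← sub_eq_add_neg]
      have h8 : k (k v) = (2 * ε) • k v - v := eq_sub_of_add_eq h4
      rw [h7, h8, smul_sub, smul_smul, hee, one_smul]
      rw [mul_smul, two_smul]
      abel
    have h9 := heps ε he _ hdU h6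
    have h10 : k v = ε • v := sub_eq_zero.1 h9
    exact hv0 (heps ε he v hvU h10)
  · -- `s`
    intro c
    rw [← hS, hSj]
  · -- `f1`
    intro c c'
    obtain ⟨p, rfl⟩ := AdjoinRoot.mk_surjective c
    obtain ⟨p', rfl⟩ := AdjoinRoot.mk_surjective c'
    rw [mul_assoc, ← hβ, hl, ← map_mul, hj, hj, hj, hadjp, hmul]
  · -- `f2`
    intro c c'
    obtain ⟨p, rfl⟩ := AdjoinRoot.mk_surjective c
    obtain ⟨p', rfl⟩ := AdjoinRoot.mk_surjective c'
    have e1 : B (k (aeval S p v)) (aeval S p' v) = B (k (aeval S (p' * p) v)) v := by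
      rw [← hadjp, ← hcomm, hmul]
    have e2 : B (k (aeval S (p' * p) v)) v = B (k⁻¹ (aeval S (p' * p) v)) v := by
      rw [hadj, hadjp, ← hcomm', hB.symm]
    have e3 : 2 * B (k (aeval S p v)) (aeval S p' v) = B (S (aeval S (p' * p) v)) v := by
      rw [hS, map_add, LinearMap.add_apply, two_mul, e1]
      nth_rewrite 2 [e2]
      rfl
    have e4 : S (aeval S (p' * p) v) = j (σ * AdjoinRoot.mk f (p' * p)) := by
      rw [← hSj, hj]
    have e5 : β * (σ * AdjoinRoot.mk f (p' * p)) =
        β * σ * AdjoinRoot.mk f p * AdjoinRoot.mk f p' := by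
      rw [map_mul]
      ring
    rw [hj, hj, e3, e4, hB.symm, ← hl, hβ, e5]
  · -- `fx`
    intro c hc
    have h1 := hfix (j c) (hjU c) hc
    obtain ⟨p, rfl⟩ := AdjoinRoot.mk_surjective c
    rw [hj] at h1
    exact AdjoinRoot.mk_eq_zero.2 (hdv p h1)
  · -- the degree
    have h1 : f ∣ G F n := hzero _ (hG k hkL S U n hS (by rw [← hn]; exact hkr) hkU hfix)
    have h2 := natDegree_le_of_dvd h1 (hGm F n).1.ne_zero
    rw [(hGm F n).2] at h2
    rw [hrank]
    omega
  · -- the trace
    intro h7 hc3 hf3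
    have hn3 : n = 3 := by omega
    subst hn3
    have h1 : f ∣ G F 3 := hzero _ (hG k hkL S U 3 hS (by rw [← hn]; exact hkr) hkU hfix)
    have h2 : AdjoinRoot.mk f (G F 3) = 0 := AdjoinRoot.mk_eq_zero.2 h1
    rw [hG3] at h2
    simp only [map_sub, map_add, map_mul, map_pow, AdjoinRoot.mk_X, map_ofNat, map_one] at h2
    exact kdt hc3 hf3 σ h2

end

end Pool.Agent.ORT
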